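import Pool.Agent.H8.AV3.Stmts7
import Pool.Agent.H8.AV3.Base2
import Mathlib.LinearAlgebra.Matrix.GeneralLinearGroup.Card

/-!
# ORB: the orbit of a smooth cubic over a finite field is large
-/

set_option autoImplicit false

namespace Pool.Agent.H20.AV3C

open Polynomial Matrix Pool.AVR Pool.AV3

section AlgClosed

variable {K : Type} [Field K]

/-- The matrix with given columns. -/
def cols (u v w : Fin 3 → K) : Matrix (Fin 3) (Fin 3) K :=
  !![u 0, v 0, w 0; u 1, v 1, w 1; u 2, v 2, w 2]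

omit [Field K] in
theorem cols0 (u v w : Fin 3 → K) : (fun i => cols u v w i 0) = u := by
  funext i
  fin_cases i <;> rfl

omit [Field K] in
theorem cols1 (u v w : Fin 3 → K) : (fun i => cols u v w i 1) = v := by
  funext i
  fin_cases i <;> rfl

omit [Field K] in
theorem cols2 (u v w : Fin 3 → K) : (fun i => cols u v w i 2) = w := by
  funext i
  fin_cases i <;> rfl

theorem cols_det (u v w : Fin 3 → K) : (cols u v w).det =
    (u 1 * v 2 - u 2 * v 1) * w 0 + (u 2 * v 0 - u 0 * v 2) * w 1 +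
      (u 0 * v 1 - u 1 * v 0) * w 2 := by
  rw [cols, Matrix.det_fin_three]
  simp only [Matrix.cons_val, Matrix.of_apply, Matrix.cons_val']
  ring

theorem tsub0 (c : Fin 10 → K) (g : Matrix (Fin 3) (Fin 3) K) :
    tsub c g 0 = tev c (fun i => g i 0) := rfl

theorem tsub1 (c : Fin 10 → K) (g : Matrix (Fin 3) (Fin 3) K) :
    tsub c g 1 = tder c (fun i => g i 0) (fun i => g i 1) := rfl

theorem tsub2 (c : Fin 10 → K) (g : Matrix (Fin 3) (Fin 3) K) :
    tsub c g 2 = tder c (fun i => g i 0) (fun i => g i 2) := rfl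

theorem tsub3 (c : Fin 10 → K) (g : Matrix (Fin 3) (Fin 3) K) :
    tsub c g 3 = tder c (fun i => g i 1) (fun i => g i 0) := rfl

theorem tsub6 (c : Fin 10 → K) (g : Matrix (Fin 3) (Fin 3) K) :
    tsub c g 6 = tev c (fun i => g i 1) := rfl

/-- The gradient. -/
def grd (c : Fin 10 → K) (v : Fin 3 → K) (j : Fin 3) : K := tder c v (Pi.single j 1)

theorem tder_grd (c : Fin 10 → K) (v w : Fin 3 → K) :
    tder c v w = grd c v 0 * w 0 + grd c v 1 * w 1 + grd c v 2 * w 2 := by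
  simp [grd, tder]
  ring

theorem eqv_div (c : Fin 10 → K) (g : Matrix (Fin 3) (Fin 3) K) (hg : g.det ≠ 0) :
    Eqv g c (g.det⁻¹ • tsub c g) := by
  refine ⟨isUnit_iff_ne_zero.2 hg, ?_⟩
  rw [smul_smul, mul_inv_cancel₀ hg, one_smul]

theorem dsc_eqv (hJER : JERStmt) (h2 : (2 : K) ≠ 0) {c c' : Fin 10 → K}
    {g : Matrix (Fin 3) (Fin 3) K} (h : Eqv g c c') :
    dsc (Jc (2 : K)⁻¹ c') = dsc (Jc (2 : K)⁻¹ c) := by
  obtain ⟨η, hη⟩ := hJER K (2 : K)⁻¹ (mul_inv_cancel₀ h2) g c c' h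
  rw [hη, dsc_sh]

/-- A zero of a smooth cubic is smooth. -/
theorem smooth_pt (hFCT : FCTStmt) (hJER : JERStmt) (h2 : (2 : K) ≠ 0) {c : Fin 10 → K}
    (hc : dsc (Jc (2 : K)⁻¹ c) ≠ 0) {v : Fin 3 → K} (hv : v ≠ 0) (h0 : tev c v = 0) :
    ∃ w, tder c v w ≠ 0 := by
  by_contra hcon
  push Not at hcon
  have hw : ∃ u w : Fin 3 → K, (cols v u w).det ≠ 0 := by
    have : ∃ i, v i ≠ 0 := Function.ne_iff.1 hv
    obtain ⟨i, hi⟩ := this
    fin_cases i
    · exact ⟨![0, 1, 0], ![0, 0, 1], by rw [cols_det]; simpa using hi⟩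
    · exact ⟨![0, 0, 1], ![1, 0, 0], by rw [cols_det]; simpa using hi⟩
    · exact ⟨![1, 0, 0], ![0, 1, 0], by rw [cols_det]; simpa using hi⟩
  obtain ⟨u, w, hd⟩ := hw
  have hE := eqv_div c (cols v u w) hd
  have hdsc := dsc_eqv hJER h2 hE
  have h := (hFCT K (2 : K)⁻¹ 0 (mul_inv_cancel₀ h2)).1
    ((cols v u w).det⁻¹ • tsub c (cols v u w)) ?_ ?_ ?_
  · rw [hdsc] at h
    apply hc
    rw [zero_pow two_ne_zero] at h
    exact zero_dvd_iff.1 h
  · rw [Pi.smul_apply, tsub0, cols0, h0, smul_zero]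
    exact dvd_zero _
  · rw [Pi.smul_apply, tsub1, cols0, hcon, smul_zero]
  · rw [Pi.smul_apply, tsub2, cols0, hcon, smul_zero]

/-- A zero of a smooth cubic is good. -/
theorem good_pt (hFCT : FCTStmt) (hJER : JERStmt) (h2 : (2 : K) ≠ 0) {c : Fin 10 → K}
    (hc : dsc (Jc (2 : K)⁻¹ c) ≠ 0) {v : Fin 3 → K} (hv : v ≠ 0) (h0 : tev c v = 0) :
    Good c v := by
  have hsm := smooth_pt hFCT hJER h2 hc hv h0
  refine ⟨h0, hsm, ?_⟩
  by_contra hcon
  push Not at hcon
  obtain ⟨w, hw⟩ := hsm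
  have hn : ∃ j, grd c v j ≠ 0 := by
    by_contra hh
    push Not at hh
    apply hw
    rw [tder_grd, hh, hh, hh]
    ring
  have hvn : grd c v 0 * v 0 + grd c v 1 * v 1 + grd c v 2 * v 2 = 0 := by
    rw [← tder_grd, tder_self, h0, mul_zero]
  have hvi : ∃ i, v i ≠ 0 := Function.ne_iff.1 hv
  obtain ⟨i, hi⟩ := hvi
  obtain ⟨j, hj⟩ := hn
  -- `y = e_i`, `w0 = n × y`
  set y : Fin 3 → K := Pi.single i 1 with hy
  set n : Fin 3 → K := grd c v with hnn
  set w0 : Fin 3 → K := ![n 1 * y 2 - n 2 * y 1, n 2 * y 0 - n 0 * y 2, n 0 * y 1 - n 1 * y 0]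
    with hw0
  have hW : tder c v w0 = 0 := by
    rw [tder_grd, ← hnn, hw0]
    simp only [Matrix.cons_val]
    ring
  have hvy : v 0 * y 0 + v 1 * y 1 + v 2 * y 2 = v i := by
    rw [hy]
    fin_cases i <;> simp
  have hdet : (cols v w0 (Pi.single j 1)).det = v i * n j := by
    have e1 : (cols v w0 (Pi.single j 1)).det =
        (v 0 * y 0 + v 1 * y 1 + v 2 * y 2) *
          (n 0 * (Pi.single j 1 : Fin 3 → K) 0 + n 1 * (Pi.single j 1 : Fin 3 → K) 1 +
            n 2 * (Pi.single j 1 : Fin 3 → K) 2) -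
        (n 0 * v 0 + n 1 * v 1 + n 2 * v 2) *
          (y 0 * (Pi.single j 1 : Fin 3 → K) 0 + y 1 * (Pi.single j 1 : Fin 3 → K) 1 +
            y 2 * (Pi.single j 1 : Fin 3 → K) 2) := by
      rw [cols_det, hw0]
      simp only [Matrix.cons_val]
      ring
    have e2 : n 0 * (Pi.single j 1 : Fin 3 → K) 0 + n 1 * (Pi.single j 1 : Fin 3 → K) 1 +
            n 2 * (Pi.single j 1 : Fin 3 → K) 2 = n j := by
      fin_cases j <;> simp
    rw [e1, hvn, e2, hvy]
    ring
  have hd : (cols v w0 (Pi.single j 1)).det ≠ 0 := by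
    rw [hdet]
    exact mul_ne_zero hi hj
  have h6 : tev c w0 = 0 := hcon w0 hW
  have h3 : tder c w0 v = 0 := by
    have h7 : tder c v (v + w0) = 0 := by
      rw [tder_add_right, hW, tder_self, h0]
      ring
    have h8 := hcon _ h7
    have h9 := taylor c 1 1 v w0
    rw [one_smul, one_smul, h8, h0, hW, h6] at h9
    linear_combination -h9
  have hE := eqv_div c _ hd
  have hdsc := dsc_eqv hJER h2 hE
  have h := (hFCT K (2 : K)⁻¹ 0 (mul_inv_cancel₀ h2)).2.1
    ((cols v w0 (Pi.single j 1)).det⁻¹ • tsub c (cols v w0 (Pi.single j 1))) ?_ ?_ ?_ ?_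
  · rw [hdsc] at h
    apply hc
    rw [zero_pow two_ne_zero] at h
    exact zero_dvd_iff.1 h
  · rw [Pi.smul_apply, tsub0, cols0, h0, smul_zero]
  · rw [Pi.smul_apply, tsub1, cols0, cols1, hW, smul_zero]
  · rw [Pi.smul_apply, tsub3, cols0, cols1, h3, smul_zero]
  · rw [Pi.smul_apply, tsub6, cols1, h6, smul_zero]

/-- Existence of a zero. -/
theorem exists_zero [IsAlgClosed K] (c : Fin 10 → K) : ∃ v : Fin 3 → K, v ≠ 0 ∧ tev c v = 0 := by
  by_cases h6 : c 6 = 0
  · refine ⟨![0, 1, 0], ?_, ?_⟩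
    · intro h
      have := congrFun h 1
      simp at this
    · simp [tev, h6]
  · have hdeg : (C (c 6) * X ^ 3 + C (c 3) * X ^ 2 + C (c 1) * X + C (c 0) : K[X]).degree ≠ 0 := by
      rw [degree_cubic h6]
      decide
    obtain ⟨t, ht⟩ := IsAlgClosed.exists_root _ hdeg
    refine ⟨![1, t, 0], ?_, ?_⟩
    · intro h
      have := congrFun h 0
      simp at this
    · simp only [IsRoot.def, eval_add, eval_mul, eval_C, eval_pow, eval_X] at ht
      simp only [tev, Matrix.cons_val]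
      linear_combination ht

theorem cls_self [IsAlgClosed K] (hFCT : FCTStmt) (hJER : JERStmt) (hSOL : SOL3Stmt)
    (h2 : (2 : K) ≠ 0) {c : Fin 10 → K} (hc : dsc (Jc (2 : K)⁻¹ c) ≠ 0) :
    Cls (Jc (2 : K)⁻¹ c) c := by
  obtain ⟨v, hv, h0⟩ := exists_zero c
  exact hSOL K h2 (Jc (2 : K)⁻¹ c) c v 0 hc (by rw [sh_zero]) (good_pt hFCT hJER h2 hc hv h0)

end AlgClosed

section Stab

variable {k : Type} [Field k]

/-- Proportional matrices. -/
def prS (k : Type) [Field k] : Setoid (Matrix (Fin 3) (Fin 3) k) where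
  r g g' := ∃ r : k, r ≠ 0 ∧ g' = r • g
  iseqv := ⟨fun g => ⟨1, one_ne_zero, (one_smul _ g).symm⟩,
    fun {g g'} ⟨r, h, e⟩ => ⟨r⁻¹, inv_ne_zero h, by rw [e, smul_smul, inv_mul_cancel₀ h, one_smul]⟩,
    fun {g g' g''} ⟨r, h, e⟩ ⟨r', h', e'⟩ => ⟨r' * r, mul_ne_zero h' h, by
      rw [e', e, smul_smul]⟩⟩

/-- A representative. -/
noncomputable def rep (g : Matrix (Fin 3) (Fin 3) k) : Matrix (Fin 3) (Fin 3) k :=
  Quotient.out (Quotient.mk (prS k) g)

theorem rep_spec (g : Matrix (Fin 3) (Fin 3) k) : ∃ r : k, r ≠ 0 ∧ g = r • rep g := by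
  have h : (prS k).r (rep g) g := Quotient.exact (Quotient.out_eq (Quotient.mk (prS k) g))
  exact h

theorem rep_eq {g g' : Matrix (Fin 3) (Fin 3) k} {r : k} (hr : r ≠ 0) (h : g' = r • g) :
    rep g = rep g' := by
  have h1 : Quotient.mk (prS k) g = Quotient.mk (prS k) g' := Quotient.sound ⟨r, hr, h⟩
  rw [rep, rep, h1]

theorem rep_rep (g : Matrix (Fin 3) (Fin 3) k) : rep (rep g) = rep g := by
  obtain ⟨r, hr, h⟩ := rep_spec g
  exact rep_eq hr h

open Classical in
theorem stab_card [Finite k] (hSTF : STFStmt) (hSOL : SOL3Stmt) (hFCT : FCTStmt)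
    (hJER : JERStmt) (h2 : (2 : k) ≠ 0) {c : Fin 10 → k} (hc : dsc (Jc (2 : k)⁻¹ c) ≠ 0)
    (H : Finset (Matrix (Fin 3) (Fin 3) k)) (hH : ∀ h ∈ H, Eqv h c c) :
    H.card ≤ 81 * (Nat.card k - 1) := by
  classical
  have : Fintype k := Fintype.ofFinite k
  set T := H.image rep with hT
  have hTe : ∀ t ∈ T, Eqv t c c := by
    intro t ht
    obtain ⟨g, hg, rfl⟩ := Finset.mem_image.1 ht
    obtain ⟨r, hr, h⟩ := rep_spec g
    have h1 : rep g = r⁻¹ • g := by
      conv_rhs => rw [h]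
      rw [smul_smul, inv_mul_cancel₀ hr, one_smul]
    rw [h1]
    exact (hH g hg).smul (isUnit_iff_ne_zero.2 (inv_ne_zero hr))
  have hTrep : ∀ t ∈ T, rep t = t := by
    intro t ht
    obtain ⟨g, hg, rfl⟩ := Finset.mem_image.1 ht
    exact rep_rep g
  have h1 : H.card ≤ (Nat.card k - 1) * T.card := by
    apply Finset.card_le_mul_card_image
    intro t ht
    have h3 : (H.filter fun x => rep x = t) ⊆ (Finset.univ : Finset kˣ).image
        (fun u : kˣ => (u : k) • t) := by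
      intro x hx
      rw [Finset.mem_filter] at hx
      obtain ⟨r, hr, h⟩ := rep_spec x
      rw [Finset.mem_image]
      refine ⟨Units.mk0 r hr, Finset.mem_univ _, ?_⟩
      rw [Units.val_mk0, ← hx.2, ← h]
    refine (Finset.card_le_card h3).trans (Finset.card_image_le.trans ?_)
    rw [Finset.card_univ, ← Nat.card_eq_fintype_card, Nat.card_units]
  have h3 : T.card ≤ 81 := by
    set ι := algebraMap k (AlgebraicClosure k) with hι
    have hinj : Function.Injective ι := ι.injective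
    have hminj : Function.Injective
        (fun g : Matrix (Fin 3) (Fin 3) k => g.map ι) := by
      intro g g' h
      ext i j
      have := congrFun (congrFun h i) j
      exact hinj this
    have h2' : (2 : AlgebraicClosure k) ≠ 0 := by
      intro h
      apply h2
      apply hinj
      rw [map_zero, map_ofNat]
      exact h
    have hJm : Jc (2 : AlgebraicClosure k)⁻¹ (fun i => ι (c i)) =
        (ι (Jc (2 : k)⁻¹ c).1, ι (Jc (2 : k)⁻¹ c).2.1, ι (Jc (2 : k)⁻¹ c).2.2) := by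
      simp only [Jc, jb4, jb6, map_add, map_sub, map_mul, map_pow, map_neg, map_ofNat, map_inv₀]
    have hd : dsc (Jc (2 : AlgebraicClosure k)⁻¹ (fun i => ι (c i))) ≠ 0 := by
      have h5 : dsc (Jc (2 : AlgebraicClosure k)⁻¹ (fun i => ι (c i))) =
          ι (dsc (Jc (2 : k)⁻¹ c)) := by
        rw [hJm]
        simp only [dsc, disc, map_add, map_sub, map_mul, map_pow, map_ofNat]
      rw [h5]
      intro h6
      exact hc (hinj (by rw [h6, map_zero]))
    have hC := cls_self hFCT hJER hSOL h2' hd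
    have h6 := hSTF (AlgebraicClosure k) h2' _ hd _ hC (T.image fun g => g.map ι) ?_ ?_
    · rwa [Finset.card_image_of_injective _ hminj] at h6
    · intro g hg
      obtain ⟨g0, hg0, rfl⟩ := Finset.mem_image.1 hg
      exact (hTe g0 hg0).map ι
    · intro g hg g' hg' hne r hr
      obtain ⟨g0, hg0, rfl⟩ := Finset.mem_image.1 hg
      obtain ⟨g1, hg1, rfl⟩ := Finset.mem_image.1 hg'
      have hg0n : ∃ i j, g0 i j ≠ 0 := by
        by_contra hh
        push Not at hh
        have h7 : g0 = 0 := by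
          ext i j
          exact hh i j
        have h8 := (hTe g0 hg0).1
        rw [h7, Matrix.det_zero] at h8
        exact not_isUnit_zero h8
      obtain ⟨i, j, hij⟩ := hg0n
      have hentry : ∀ a b, ι (g1 a b) = r * ι (g0 a b) := by
        intro a b
        have := congrFun (congrFun hr a) b
        simpa using this
      have hr1 : r = ι (g1 i j / g0 i j) := by
        rw [map_div₀, eq_div_iff (fun h => hij (hinj (by rw [h, map_zero])))]
        exact (hentry i j).symm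
      have hg1e : g1 = (g1 i j / g0 i j) • g0 := by
        ext a b
        apply hinj
        rw [hentry a b, Matrix.smul_apply, smul_eq_mul, map_mul, ← hr1]
      have hs : g1 i j / g0 i j ≠ 0 := by
        intro h
        rw [h, zero_smul] at hg1e
        have h8 := (hTe g1 hg1).1
        rw [hg1e, Matrix.det_zero] at h8
        exact not_isUnit_zero h8
      apply hne
      have h9 := rep_eq hs hg1e
      rw [hTrep g0 hg0, hTrep g1 hg1] at h9
      rw [h9]
  calc H.card ≤ (Nat.card k - 1) * T.card := h1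
    _ ≤ (Nat.card k - 1) * 81 := Nat.mul_le_mul_left _ h3
    _ = 81 * (Nat.card k - 1) := Nat.mul_comm _ _

theorem dsc_smul (τ r : k) (c : Fin 10 → k) :
    dsc (Jc τ (r • c)) = r ^ 12 * dsc (Jc τ c) := by
  rw [Jc_smul]
  simp only [dsc, disc]
  ring

theorem nat_bound (q : ℕ) (hq : 2 < q) :
    q ^ 9 ≤ 2 * ((q ^ 3 - 1) * (q ^ 3 - q) * (q ^ 3 - q ^ 2)) := by
  obtain ⟨m, rfl⟩ : ∃ m, q = m + 3 := ⟨q - 3, by omega⟩
  have e1 : (m + 3) ^ 3 - 1 = m ^ 3 + 9 * m ^ 2 + 27 * m + 26 := by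
    rw [show (m + 3) ^ 3 = m ^ 3 + 9 * m ^ 2 + 27 * m + 26 + 1 by ring, Nat.add_sub_cancel]
  have e2 : (m + 3) ^ 3 - (m + 3) = m ^ 3 + 9 * m ^ 2 + 26 * m + 24 := by
    rw [show (m + 3) ^ 3 = m ^ 3 + 9 * m ^ 2 + 26 * m + 24 + (m + 3) by ring, Nat.add_sub_cancel]
  have e3 : (m + 3) ^ 3 - (m + 3) ^ 2 = m ^ 3 + 8 * m ^ 2 + 21 * m + 18 := by
    rw [show (m + 3) ^ 3 = m ^ 3 + 8 * m ^ 2 + 21 * m + 18 + (m + 3) ^ 2 by ring,
      Nat.add_sub_cancel]
  rw [e1, e2, e3]
  have e4 : 2 * ((m ^ 3 + 9 * m ^ 2 + 27 * m + 26) * (m ^ 3 + 9 * m ^ 2 + 26 * m + 24) *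
      (m ^ 3 + 8 * m ^ 2 + 21 * m + 18)) = (m + 3) ^ 9 +
      (2781 + 14823 * m + 28332 * m ^ 2 + 28552 * m ^ 3 + 17420 * m ^ 4 + 6806 * m ^ 5 +
        1722 * m ^ 6 + 274 * m ^ 7 + 25 * m ^ 8 + m ^ 9) := by ring
  rw [e4]
  exact Nat.le_add_right _ _

open Classical in
theorem main_count [Finite k] (hSTF : STFStmt) (hSOL : SOL3Stmt) (hFCT : FCTStmt)
    (hJER : JERStmt) (h2 : (2 : k) ≠ 0) {c : Fin 10 → k} (hc : dsc (Jc (2 : k)⁻¹ c) ≠ 0) :
    Nat.card (GL (Fin 3) k) ≤ 972 * {c' : Fin 10 → k |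
      ∃ (g : Matrix (Fin 3) (Fin 3) k) (l : k), IsUnit g.det ∧ l ≠ 0 ∧
        tsub c g = l • c'}.ncard := by
  classical
  have : Fintype k := Fintype.ofFinite k
  set Ob : Set (Fin 10 → k) := {c' : Fin 10 → k |
      ∃ (g : Matrix (Fin 3) (Fin 3) k) (l : k), IsUnit g.det ∧ l ≠ 0 ∧
        tsub c g = l • c'} with hOb
  let f : GL (Fin 3) k × kˣ → (Fin 10 → k) × k := fun x =>
    ((x.2 : k)⁻¹ • tsub c x.1.1, (x.2 : k) / x.1.1.det)
  have hdet : ∀ g : GL (Fin 3) k, g.1.det ≠ 0 := fun g => g.isUnit.map detMonoidHom |>.ne_zero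
  have hEq : ∀ x, Eqv x.1.1 c ((f x).2 • (f x).1) := by
    intro x
    refine ⟨isUnit_iff_ne_zero.2 (hdet x.1), ?_⟩
    have hl : (x.2 : k) ≠ 0 := x.2.ne_zero
    have hd := hdet x.1
    simp only [f]
    rw [smul_smul, smul_smul, show x.1.1.det * ((x.2 : k) / x.1.1.det) * (x.2 : k)⁻¹ = 1 by
      field_simp, one_smul]
  -- the fibres of `f`
  have h1 : (Finset.univ : Finset (GL (Fin 3) k × kˣ)).card ≤
      81 * (Nat.card k - 1) * (Finset.univ.image f).card := by
    apply Finset.card_le_mul_card_image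
    intro a ha
    obtain ⟨x0, -, hx0⟩ := Finset.mem_image.1 ha
    set Fb := (Finset.univ : Finset (GL (Fin 3) k × kˣ)).filter fun x => f x = a with hFb
    have hinj : Set.InjOn (fun x : GL (Fin 3) k × kˣ => x.1.1 * x0.1.1⁻¹) Fb := by
      intro x hx y hy hxy
      simp only [hFb, Finset.coe_filter, Finset.mem_univ, true_and, Set.mem_ofPred_eq] at hx hy
      have h3 : x.1.1 = y.1.1 := by
        have h4 : x.1.1 * x0.1.1⁻¹ * x0.1.1 = y.1.1 * x0.1.1⁻¹ * x0.1.1 := by
          have h5 : x.1.1 * x0.1.1⁻¹ = y.1.1 * x0.1.1⁻¹ := hxy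
          rw [h5]
        rwa [Matrix.mul_assoc, Matrix.nonsing_inv_mul _ (isUnit_iff_ne_zero.2 (hdet x0.1)),
          Matrix.mul_one, Matrix.mul_assoc,
          Matrix.nonsing_inv_mul _ (isUnit_iff_ne_zero.2 (hdet x0.1)), Matrix.mul_one] at h4
      have h6 : (f x).2 = (f y).2 := by rw [hx, hy]
      simp only [f] at h6
      rw [h3, div_left_inj' (hdet y.1)] at h6
      exact Prod.ext (Units.ext h3) (Units.ext h6)
    rw [← Finset.card_image_of_injOn hinj]
    apply stab_card hSTF hSOL hFCT hJER h2 hc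
    intro h hh
    obtain ⟨x, hx, rfl⟩ := Finset.mem_image.1 hh
    rw [hFb, Finset.mem_filter] at hx
    have h3 := hEq x
    have h4 := hEq x0
    rw [hx.2] at h3
    rw [hx0] at h4
    exact h3.trans h4.symm
  -- the values of the second component
  have h3 : (Finset.univ.image f).card ≤ 12 * ((Finset.univ.image f).image Prod.fst).card := by
    apply Finset.card_le_mul_card_image
    intro b hb
    set Y := (Finset.univ.image f).filter fun y => y.1 = b with hY
    have hinj : Set.InjOn (Prod.snd : (Fin 10 → k) × k → k) Y := by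
      intro x hx y hy hxy
      simp only [hY, Finset.coe_filter, Set.mem_ofPred_eq] at hx hy
      exact Prod.ext (hx.2.trans hy.2.symm) hxy
    rw [← Finset.card_image_of_injOn hinj]
    have hkey : ∀ μ ∈ Y.image Prod.snd, μ ^ 12 * dsc (Jc (2 : k)⁻¹ b) = dsc (Jc (2 : k)⁻¹ c) := by
      intro μ hμ
      obtain ⟨y, hy, rfl⟩ := Finset.mem_image.1 hμ
      rw [hY, Finset.mem_filter] at hy
      obtain ⟨x, -, hx⟩ := Finset.mem_image.1 hy.1
      have h4 := dsc_eqv hJER h2 (hEq x)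
      rw [hx, dsc_smul, hy.2] at h4
      exact h4
    by_cases hbz : dsc (Jc (2 : k)⁻¹ b) = 0
    · have : Y.image Prod.snd = ∅ := by
        rw [Finset.eq_empty_iff_forall_notMem]
        intro μ hμ
        apply hc
        rw [← hkey μ hμ, hbz, mul_zero]
      rw [this]
      simp
    · have hsub : (Y.image Prod.snd) ⊆
          (X ^ 12 - C (dsc (Jc (2 : k)⁻¹ c) / dsc (Jc (2 : k)⁻¹ b)) : k[X]).roots.toFinset := by
        intro μ hμ
        rw [Multiset.mem_toFinset, mem_roots (X_pow_sub_C_ne_zero (by norm_num) _), IsRoot.def]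
        simp only [eval_sub, eval_pow, eval_X, eval_C]
        rw [← hkey μ hμ, mul_div_assoc, div_self hbz, mul_one, sub_self]
      refine (Finset.card_le_card hsub).trans ((Multiset.toFinset_card_le _).trans ?_)
      refine (card_roots' _).trans ?_
      rw [natDegree_X_pow_sub_C]
  have h4 : ((Finset.univ.image f).image Prod.fst).card ≤ Ob.ncard := by
    rw [← Set.ncard_coe_finset]
    apply Set.ncard_le_ncard _ (Set.toFinite _)
    intro b hb
    simp only [Finset.coe_image, Set.mem_image, Finset.coe_univ, Set.image_univ,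
      Set.mem_range] at hb
    obtain ⟨y, ⟨x, rfl⟩, rfl⟩ := hb
    refine ⟨x.1.1, x.2, isUnit_iff_ne_zero.2 (hdet x.1), x.2.ne_zero, ?_⟩
    simp only [f]
    rw [smul_smul, mul_inv_cancel₀ x.2.ne_zero, one_smul]
  have h5 : (Finset.univ : Finset (GL (Fin 3) k × kˣ)).card =
      Nat.card (GL (Fin 3) k) * (Nat.card k - 1) := by
    rw [Finset.card_univ, Fintype.card_prod, ← Nat.card_units, Nat.card_eq_fintype_card,
      Nat.card_eq_fintype_card]
  have hk : 0 < Nat.card k - 1 := by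
    have := Finite.one_lt_card (α := k)
    omega
  have h6 : Nat.card (GL (Fin 3) k) * (Nat.card k - 1) ≤ 972 * Ob.ncard * (Nat.card k - 1) := by
    rw [← h5]
    calc _ ≤ 81 * (Nat.card k - 1) * (Finset.univ.image f).card := h1
      _ ≤ 81 * (Nat.card k - 1) * (12 * Ob.ncard) :=
          Nat.mul_le_mul_left _ (h3.trans (Nat.mul_le_mul_left _ h4))
      _ = _ := by ring
  exact Nat.le_of_mul_le_mul_right h6 hk

end Stab

/-- ORB: the orbit of a smooth cubic over a finite field is large. -/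
theorem orb_thm (hSTF : STFStmt) (hSOL : SOL3Stmt) (hFCT : FCTStmt) (hJER : JERStmt) :
    Pool.AV3.ORBStmt := by
  intro k _ _ h2 c hc
  have : Fintype k := Fintype.ofFinite k
  have h1 := main_count hSTF hSOL hFCT hJER h2 hc
  have hq : 2 < Nat.card k := by
    have h3 := Finite.one_lt_card (α := k)
    rcases Nat.lt_or_ge 2 (Nat.card k) with h | h
    · exact h
    · exfalso
      have h4 : Nat.card k = 2 := by omega
      apply h2
      have h5 := FiniteField.cast_card_eq_zero k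
      rw [← Nat.card_eq_fintype_card, h4] at h5
      exact_mod_cast h5
  have h3 : Nat.card (GL (Fin 3) k) = (Nat.card k ^ 3 - 1) * (Nat.card k ^ 3 - Nat.card k) *
      (Nat.card k ^ 3 - Nat.card k ^ 2) := by
    rw [Matrix.card_GL_field]
    simp [Fin.prod_univ_three, Nat.card_eq_fintype_card]
  have h4 := nat_bound _ hq
  rw [← h3] at h4
  calc Nat.card k ^ 9 ≤ 2 * Nat.card (GL (Fin 3) k) := h4
    _ ≤ 2 * (972 * _) := Nat.mul_le_mul_left _ h1
    _ = 1944 * _ := by ring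

end Pool.Agent.H20.AV3C
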